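import Pool.Agent.H73.GWT.Stmts

/-! Project GWT: row TPT, a point of the trimmed segment. -/

set_option autoImplicit false

namespace GWT

section

variable {ι G V : Type*} [Fintype ι] [Group G] [MulAction G V] (C : Code ι G V)

theorem TPT : TPTStmt C := by
  intro g h t₁ t₂ Q P p h1 h2 h3 hp h4 h5
  have e1 : C.T.dist (h • C.o) (h • p) = C.T.dist C.o p := C.ds h _ _
  have e2 : C.T.dist (h • C.o) (h • g • C.o) = C.T.dist C.o (g • C.o) := C.ds h _ _
  have hp' : Bt C.T (h • C.o) (h • p) (h • g • C.o) := (C.bs h).2 hp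
  have h1' : C.T.dist (h • C.o) Q = t₁ := h1
  have h2' : C.T.dist P (h • g • C.o) = t₂ := h2
  have h3' : C.T.dist (h • C.o) (h • g • C.o) = t₁ + C.T.dist Q P + t₂ := h3
  have h4' : t₁ ≤ C.T.dist C.o p := h4
  have h5' : C.T.dist C.o p + t₂ ≤ C.T.dist C.o (g • C.o) := h5
  have t1 := dtri C.tree Q P (h • g • C.o)
  have t2 := dtri C.tree (h • C.o) Q (h • g • C.o)
  have t3 := dtri C.tree (h • C.o) Q P
  have t4 := dtri C.tree (h • C.o) P (h • g • C.o)
  have hQ : Bt C.T (h • C.o) Q (h • g • C.o) := by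
    unfold Bt
    omega
  have hP : Bt C.T (h • C.o) P (h • g • C.o) := by
    unfold Bt
    omega
  have hPd : C.T.dist (h • C.o) P = t₁ + C.T.dist Q P := by omega
  obtain ⟨a1, -⟩ := ORD C.tree hQ hp' (by omega)
  obtain ⟨a2, -⟩ := ORD C.tree hp' hP (by omega)
  unfold Bt at a1 a2
  refine ⟨?_, ?_⟩
  · unfold Bt
    omega
  · show C.T.dist Q (h • p) + t₁ = C.T.dist C.o p
    omega

end

end GWT
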